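import Mathlib

set_option autoImplicit false

namespace Pool.Agent.Tron

variable {V : Type*}

/-- `Free G S p q`: the vertex `q` can be claimed by a player whose last claimed vertex is `p`,
when `S` is the set of all vertices claimed so far (by either player). -/
def Free (G : SimpleGraph V) (S : Set V) (p q : V) : Prop := G.Adj p q ∧ q ∉ S

open Classical in
/-- `rest G w k t S x y` is the optimal value of the remaining part of `w(B) - w(A)`, when `S` is
the set of claimed vertices, `x` is Alice's last claimed vertex, `y` is Bob's last claimed vertex,
it is Alice's turn if `t = false` and Bob's turn if `t = true`, and at most `k` further vertices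
will be claimed. A player who can move must move; a player who cannot move is skipped; the game is
over when nobody can move. Alice minimises and Bob maximises. -/
noncomputable def rest (G : SimpleGraph V) (w : V → ℝ) : ℕ → Bool → Set V → V → V → ℝ
  | 0, _, _, _, _ => 0
  | k + 1, false, S, x, y =>
      if ∃ q, Free G S x q then
        ⨅ q : {q // Free G S x q}, (rest G w k true (insert q.1 S) q.1 y - w q.1)
      else if ∃ q, Free G S y q then
        ⨆ q : {q // Free G S y q}, (rest G w k false (insert q.1 S) x q.1 + w q.1)
      else 0
  | k + 1, true, S, x, y =>
      if ∃ q, Free G S y q then
        ⨆ q : {q // Free G S y q}, (rest G w k false (insert q.1 S) x q.1 + w q.1)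
      else if ∃ q, Free G S x q then
        ⨅ q : {q // Free G S x q}, (rest G w k true (insert q.1 S) q.1 y - w q.1)
      else 0

/-- The value of Weighted Tron: Alice picks a start vertex `a`, Bob picks a start vertex `b ≠ a`,
and then they play from there, Alice moving first. Every move claims a new vertex, so the bound
`Fintype.card V` on the number of moves is never reached. -/
noncomputable def value [Fintype V] (G : SimpleGraph V) (w : V → ℝ) : ℝ :=
  ⨅ a : V, ⨆ b : {b : V // b ≠ a}, (w b.1 - w a + rest G w (Fintype.card V) false {a, b.1} a b.1)

end Pool.Agent.Tron
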