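import Mathlib
import Pool.Agent.Tron.Defs

set_option autoImplicit false

namespace Pool.Agent.Tron

variable {V : Type*}

/-- The bound `k` on the number of moves plays no role once it is at least the number of unclaimed
vertices; in particular `Fintype.card V` in `value` can be replaced by any larger number. -/
theorem rest_fuel [Finite V] (G : SimpleGraph V) (w : V → ℝ) : ∀ (k l : ℕ) (t : Bool) (S : Set V)
    (x y : V), Sᶜ.ncard ≤ k → Sᶜ.ncard ≤ l → rest G w k t S x y = rest G w l t S x y := by
  have none : ∀ (S : Set V), Sᶜ.ncard ≤ 0 → ∀ x, ¬ ∃ q, Free G S x q := by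
    intro S hS x
    rintro ⟨q, hq⟩
    have h0 : Sᶜ = ∅ := by
      rw [← Set.ncard_eq_zero (Set.toFinite _)]
      omega
    have : q ∈ Sᶜ := hq.2
    rw [h0] at this
    exact this
  have zero : ∀ (l : ℕ) (t : Bool) (S : Set V) (x y : V), Sᶜ.ncard ≤ 0 → rest G w l t S x y = 0 := by
    intro l t S x y hS
    cases l with
    | zero => cases t <;> rfl
    | succ l =>
      cases t <;> rw [rest, if_neg (none S hS _), if_neg (none S hS _)]
  have dec : ∀ (S : Set V) (x q : V) (k : ℕ), Free G S x q → Sᶜ.ncard ≤ k + 1 →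
      (insert q S)ᶜ.ncard ≤ k := by
    intro S x q k hq hk
    have h1 : (insert q S)ᶜ ⊂ Sᶜ := by
      refine ⟨Set.compl_subset_compl.2 (Set.subset_insert _ _), fun h => ?_⟩
      have := h (show q ∈ Sᶜ from hq.2)
      exact this (Set.mem_insert _ _)
    have := Set.ncard_lt_ncard h1 (Set.toFinite _)
    omega
  intro k
  induction k with
  | zero =>
    intro l t S x y hk _
    rw [zero 0 t S x y hk, zero l t S x y hk]
  | succ k ih =>
    intro l t S x y hk hl
    cases l with
    | zero => rw [zero _ t S x y hl, zero _ t S x y hl]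
    | succ l =>
      have hA : ∀ t', (⨅ q : {q // Free G S x q}, (rest G w k t' (insert q.1 S) q.1 y - w q.1))
          = ⨅ q : {q // Free G S x q}, (rest G w l t' (insert q.1 S) q.1 y - w q.1) := by
        intro t'
        congr 1
        funext q
        rw [ih l t' _ _ _ (dec S x q.1 k q.2 hk) (dec S x q.1 l q.2 hl)]
      have hB : ∀ t', (⨆ q : {q // Free G S y q}, (rest G w k t' (insert q.1 S) x q.1 + w q.1))
          = ⨆ q : {q // Free G S y q}, (rest G w l t' (insert q.1 S) x q.1 + w q.1) := by
        intro t'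
        congr 1
        funext q
        rw [ih l t' _ _ _ (dec S y q.1 k q.2 hk) (dec S y q.1 l q.2 hl)]
      cases t <;> simp only [rest, hA, hB]

section Sound

variable {n : ℕ} (wt : ℕ → ℕ) (T D : ℕ)

/-- A test: can Bob guarantee that the final balance (times the total `D`) is at least `T`, when the
balance so far is `u - v`? The claimed vertices are the bits of `m`. -/
def chk : ℕ → Bool → ℕ → Fin (n + 2) → Fin (n + 2) → ℕ → ℕ → Bool
  | 0, _, _, _, _, u, v => Nat.ble (v + T) u
  | k + 1, false, m, x, y, u, v =>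
      if !(m.testBit (x + 1).1) || !(m.testBit (x - 1).1) then
        ((m.testBit (x + 1).1) ||
          chk k true (m ||| 1 <<< (x + 1).1) (x + 1) y u (v + wt (x + 1).1)) &&
        ((m.testBit (x - 1).1) ||
          chk k true (m ||| 1 <<< (x - 1).1) (x - 1) y u (v + wt (x - 1).1))
      else if !(m.testBit (y + 1).1) || !(m.testBit (y - 1).1) then
        (!(m.testBit (y + 1).1) &&
          chk k false (m ||| 1 <<< (y + 1).1) x (y + 1) (u + wt (y + 1).1) v) ||
        (!(m.testBit (y - 1).1) &&
          chk k false (m ||| 1 <<< (y - 1).1) x (y - 1) (u + wt (y - 1).1) v)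
      else Nat.ble (v + T) u
  | k + 1, true, m, x, y, u, v =>
      if !(m.testBit (y + 1).1) || !(m.testBit (y - 1).1) then
        (!(m.testBit (y + 1).1) &&
          chk k false (m ||| 1 <<< (y + 1).1) x (y + 1) (u + wt (y + 1).1) v) ||
        (!(m.testBit (y - 1).1) &&
          chk k false (m ||| 1 <<< (y - 1).1) x (y - 1) (u + wt (y - 1).1) v)
      else if !(m.testBit (x + 1).1) || !(m.testBit (x - 1).1) then
        ((m.testBit (x + 1).1) ||
          chk k true (m ||| 1 <<< (x + 1).1) (x + 1) y u (v + wt (x + 1).1)) &&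
        ((m.testBit (x - 1).1) ||
          chk k true (m ||| 1 <<< (x - 1).1) (x - 1) y u (v + wt (x - 1).1))
      else Nat.ble (v + T) u

/-- the weights -/
noncomputable def wR (i : Fin (n + 2)) : ℝ := (wt i.1 : ℝ) / D

/-- the set coded by `m` -/
def cl (n m : ℕ) : Set (Fin (n + 2)) := {q | m.testBit q.1 = true}

theorem free_iff (m : ℕ) (x q : Fin (n + 2)) :
    Free (SimpleGraph.cycleGraph (n + 2)) (cl n m) x q ↔
      (q = x + 1 ∨ q = x - 1) ∧ m.testBit q.1 = false := by
  unfold Free cl
  rw [SimpleGraph.cycleGraph_adj]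
  simp only [Set.mem_ofPred_eq, Bool.not_eq_true]
  constructor
  · rintro ⟨h, h'⟩
    refine ⟨?_, h'⟩
    rcases h with h | h
    · right
      rw [← h]; abel
    · left
      rw [← h]; abel
  · rintro ⟨h, h'⟩
    refine ⟨?_, h'⟩
    rcases h with h | h
    · right
      rw [h]; abel
    · left
      rw [h]; abel

theorem cl_insert (m : ℕ) (q : Fin (n + 2)) : insert q (cl n m) = cl n (m ||| 1 <<< q.1) := by
  ext v
  simp only [cl, Set.mem_insert_iff, Set.mem_ofPred_eq, Nat.testBit_or, Nat.testBit_shiftLeft,
    Bool.or_eq_true, Bool.and_eq_true, decide_eq_true_eq]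
  constructor
  · rintro (h | h)
    · right
      subst h
      simp
    · left; exact h
  · rintro (h | ⟨h1, h2⟩)
    · right; exact h
    · left
      have h3 : v.1 - q.1 = 0 := by
        by_contra h0
        obtain ⟨j, hj⟩ := Nat.exists_eq_succ_of_ne_zero h0
        rw [hj, Nat.succ_eq_add_one, Nat.testBit_add_one] at h2
        simp at h2
      apply Fin.ext
      omega

theorem alice_le (G : SimpleGraph (Fin (n + 2))) (S : Set (Fin (n + 2))) (x : Fin (n + 2))
    (c : ℝ) (f : Fin (n + 2) → ℝ) (he : ∃ q, Free G S x q) (h : ∀ q, Free G S x q → c ≤ f q) :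
    c ≤ ⨅ q : {q // Free G S x q}, f q.1 := by
  obtain ⟨q, hq⟩ := he
  have : Nonempty {q // Free G S x q} := ⟨⟨q, hq⟩⟩
  exact le_ciInf (fun q => h q.1 q.2)

theorem bob_le (G : SimpleGraph (Fin (n + 2))) (S : Set (Fin (n + 2))) (y : Fin (n + 2))
    (c : ℝ) (f : Fin (n + 2) → ℝ) (q : Fin (n + 2)) (hq : Free G S y q) (h : c ≤ f q) :
    c ≤ ⨆ q : {q // Free G S y q}, f q.1 :=
  le_ciSup_of_le (Set.finite_range _).bddAbove ⟨q, hq⟩ h

variable {wt T D}

theorem leaf {u v : ℕ} (hD : 0 < D) (h : Nat.ble (v + T) u = true) :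
    ((T : ℝ) + v - u) / D ≤ 0 := by
  have h' : v + T ≤ u := Nat.le_of_ble_eq_true h
  have h2 : (v : ℝ) + T ≤ u := by exact_mod_cast h'
  apply div_nonpos_of_nonpos_of_nonneg
  · linarith
  · positivity

theorem chk_sound (hD : 0 < D) : ∀ (k : ℕ) (t : Bool) (m : ℕ) (x y : Fin (n + 2)) (u v : ℕ),
    chk wt T k t m x y u v = true →
    ((T : ℝ) + v - u) / D ≤ rest (SimpleGraph.cycleGraph (n + 2)) (wR wt D) k t (cl n m) x y := by
  have hD' : (0 : ℝ) < D := by exact_mod_cast hD
  intro k
  induction k with
  | zero =>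
    intro t m x y u v h
    have h' : Nat.ble (v + T) u = true := by
      cases t <;> simpa [chk] using h
    have := leaf hD h'
    cases t <;> simpa [rest] using this
  | succ k ih =>
    -- one step of Alice
    have stepA : ∀ (m : ℕ) (x y : Fin (n + 2)) (u v : ℕ),
        (∃ q, Free (SimpleGraph.cycleGraph (n + 2)) (cl n m) x q) →
        (m.testBit (x + 1).1 = false →
          chk wt T k true (m ||| 1 <<< (x + 1).1) (x + 1) y u (v + wt (x + 1).1) = true) →
        (m.testBit (x - 1).1 = false →
          chk wt T k true (m ||| 1 <<< (x - 1).1) (x - 1) y u (v + wt (x - 1).1) = true) →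
        ((T : ℝ) + v - u) / D ≤
          ⨅ q : {q // Free (SimpleGraph.cycleGraph (n + 2)) (cl n m) x q},
            (rest (SimpleGraph.cycleGraph (n + 2)) (wR wt D) k true (insert q.1 (cl n m)) q.1 y -
              wR wt D q.1) := by
      intro m x y u v he h1 h2
      refine alice_le _ _ _ _ (fun q => rest (SimpleGraph.cycleGraph (n + 2)) (wR wt D) k true
        (insert q (cl n m)) q y - wR wt D q) he ?_
      intro q hq
      rw [free_iff] at hq
      obtain ⟨hq, hm⟩ := hq
      rw [cl_insert]
      have key : ∀ q : Fin (n + 2),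
          chk wt T k true (m ||| 1 <<< q.1) q y u (v + wt q.1) = true →
          ((T : ℝ) + v - u) / D ≤ rest (SimpleGraph.cycleGraph (n + 2)) (wR wt D) k true
            (cl n (m ||| 1 <<< q.1)) q y - wR wt D q := by
        intro q hq
        have := ih _ _ _ _ _ _ hq
        have e : ((T : ℝ) + ((v + wt q.1 : ℕ) : ℝ) - u) / D
            = ((T : ℝ) + v - u) / D + wR wt D q := by
          unfold wR
          push_cast
          field_simp
          ring
        rw [e] at this
        linarith
      rcases hq with rfl | rfl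
      · exact key _ (h1 hm)
      · exact key _ (h2 hm)
    -- one step of Bob
    have stepB : ∀ (m : ℕ) (x y : Fin (n + 2)) (u v : ℕ),
        ((m.testBit (y + 1).1 = false ∧
          chk wt T k false (m ||| 1 <<< (y + 1).1) x (y + 1) (u + wt (y + 1).1) v = true) ∨
        (m.testBit (y - 1).1 = false ∧
          chk wt T k false (m ||| 1 <<< (y - 1).1) x (y - 1) (u + wt (y - 1).1) v = true)) →
        ((T : ℝ) + v - u) / D ≤
          ⨆ q : {q // Free (SimpleGraph.cycleGraph (n + 2)) (cl n m) y q},
            (rest (SimpleGraph.cycleGraph (n + 2)) (wR wt D) k false (insert q.1 (cl n m)) x q.1 +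
              wR wt D q.1) := by
      intro m x y u v h
      have key : ∀ q : Fin (n + 2), (q = y + 1 ∨ q = y - 1) → m.testBit q.1 = false →
          chk wt T k false (m ||| 1 <<< q.1) x q (u + wt q.1) v = true →
          ((T : ℝ) + v - u) / D ≤
          ⨆ q : {q // Free (SimpleGraph.cycleGraph (n + 2)) (cl n m) y q},
            (rest (SimpleGraph.cycleGraph (n + 2)) (wR wt D) k false (insert q.1 (cl n m)) x q.1 +
              wR wt D q.1) := by
        intro q hq hm hc
        refine bob_le _ _ _ _ (fun q => rest (SimpleGraph.cycleGraph (n + 2)) (wR wt D) k false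
          (insert q (cl n m)) x q + wR wt D q) q ((free_iff _ _ _).2 ⟨hq, hm⟩) ?_
        rw [cl_insert]
        have := ih _ _ _ _ _ _ hc
        have e : ((T : ℝ) + v - ((u + wt q.1 : ℕ) : ℝ)) / D
            = ((T : ℝ) + v - u) / D - wR wt D q := by
          unfold wR
          push_cast
          field_simp
          ring
        rw [e] at this
        linarith
      rcases h with ⟨h1, h2⟩ | ⟨h1, h2⟩
      · exact key _ (Or.inl rfl) h1 h2
      · exact key _ (Or.inr rfl) h1 h2
    have exi : ∀ (m : ℕ) (x : Fin (n + 2)),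
        (∃ q, Free (SimpleGraph.cycleGraph (n + 2)) (cl n m) x q) ↔
        (m.testBit (x + 1).1 = false ∨ m.testBit (x - 1).1 = false) := by
      intro m x
      constructor
      · rintro ⟨q, hq⟩
        rw [free_iff] at hq
        rcases hq with ⟨rfl | rfl, h⟩
        · exact Or.inl h
        · exact Or.inr h
      · rintro (h | h)
        · exact ⟨_, (free_iff _ _ _).2 ⟨Or.inl rfl, h⟩⟩
        · exact ⟨_, (free_iff _ _ _).2 ⟨Or.inr rfl, h⟩⟩
    intro t m x y u v h
    cases t with
    | false =>
      rw [rest]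
      rw [chk] at h
      by_cases hx : (m.testBit (x + 1).1 = false ∨ m.testBit (x - 1).1 = false)
      · rw [if_pos ((exi m x).2 hx)]
        have hc : (!(m.testBit (x + 1).1) || !(m.testBit (x - 1).1)) = true := by
          simpa using hx
        rw [if_pos hc, Bool.and_eq_true, Bool.or_eq_true, Bool.or_eq_true] at h
        refine stepA m x y u v ((exi m x).2 hx) ?_ ?_
        · intro h1
          rcases h.1 with h2 | h2
          · rw [h1] at h2; cases h2
          · exact h2
        · intro h1
          rcases h.2 with h2 | h2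
          · rw [h1] at h2; cases h2
          · exact h2
      · rw [if_neg (fun h' => hx ((exi m x).1 h'))]
        have hc : ¬ (!(m.testBit (x + 1).1) || !(m.testBit (x - 1).1)) = true := by
          simpa using hx
        rw [if_neg hc] at h
        by_cases hy : (m.testBit (y + 1).1 = false ∨ m.testBit (y - 1).1 = false)
        · rw [if_pos ((exi m y).2 hy)]
          have hd : (!(m.testBit (y + 1).1) || !(m.testBit (y - 1).1)) = true := by
            simpa using hy
          rw [if_pos hd, Bool.or_eq_true, Bool.and_eq_true, Bool.and_eq_true] at h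
          refine stepB m x y u v ?_
          simpa using h
        · rw [if_neg (fun h' => hy ((exi m y).1 h'))]
          have hd : ¬ (!(m.testBit (y + 1).1) || !(m.testBit (y - 1).1)) = true := by
            simpa using hy
          rw [if_neg hd] at h
          exact leaf hD h
    | true =>
      rw [rest]
      rw [chk] at h
      by_cases hy : (m.testBit (y + 1).1 = false ∨ m.testBit (y - 1).1 = false)
      · rw [if_pos ((exi m y).2 hy)]
        have hd : (!(m.testBit (y + 1).1) || !(m.testBit (y - 1).1)) = true := by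
          simpa using hy
        rw [if_pos hd, Bool.or_eq_true, Bool.and_eq_true, Bool.and_eq_true] at h
        refine stepB m x y u v ?_
        simpa using h
      · rw [if_neg (fun h' => hy ((exi m y).1 h'))]
        have hd : ¬ (!(m.testBit (y + 1).1) || !(m.testBit (y - 1).1)) = true := by
          simpa using hy
        rw [if_neg hd] at h
        by_cases hx : (m.testBit (x + 1).1 = false ∨ m.testBit (x - 1).1 = false)
        · rw [if_pos ((exi m x).2 hx)]
          have hc : (!(m.testBit (x + 1).1) || !(m.testBit (x - 1).1)) = true := by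
            simpa using hx
          rw [if_pos hc, Bool.and_eq_true, Bool.or_eq_true, Bool.or_eq_true] at h
          refine stepA m x y u v ((exi m x).2 hx) ?_ ?_
          · intro h1
            rcases h.1 with h2 | h2
            · rw [h1] at h2; cases h2
            · exact h2
          · intro h1
            rcases h.2 with h2 | h2
            · rw [h1] at h2; cases h2
            · exact h2
        · rw [if_neg (fun h' => hx ((exi m x).1 h'))]
          have hc : ¬ (!(m.testBit (x + 1).1) || !(m.testBit (x - 1).1)) = true := by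
            simpa using hx
          rw [if_neg hc] at h
          exact leaf hD h

/-- The complete test: for every start vertex `a` of Alice, `r a` is a good start for Bob. -/
def good (wt : ℕ → ℕ) (T : ℕ) (n : ℕ) (r : Fin (n + 2) → Fin (n + 2)) : Prop :=
  ∀ a : Fin (n + 2), r a ≠ a ∧
    chk wt T (n + 2) false (1 <<< a.1 ||| 1 <<< (r a).1) a (r a) (wt (r a).1) (wt a.1) = true

theorem value_ge (hD : 0 < D) (r : Fin (n + 2) → Fin (n + 2)) (h : good wt T n r) :
    (T : ℝ) / D ≤ value (SimpleGraph.cycleGraph (n + 2)) (wR wt D) := by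
  have hD' : (0 : ℝ) < D := by exact_mod_cast hD
  unfold value
  refine le_ciInf (fun a => ?_)
  refine le_ciSup_of_le (Set.finite_range _).bddAbove ⟨r a, (h a).1⟩ ?_
  have h1 := chk_sound (n := n) hD _ _ _ _ _ _ _ (h a).2
  have e : cl n (1 <<< a.1 ||| 1 <<< (r a).1) = {a, r a} := by
    have e0 : cl n 0 = ∅ := by
      ext v
      simp [cl]
    have e1 : cl n (1 <<< a.1) = {a} := by
      have := cl_insert (n := n) 0 a
      rw [e0, Nat.zero_or] at this
      rw [← this]
      simp
    rw [← cl_insert, e1, Set.pair_comm]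
  rw [e] at h1
  rw [Fintype.card_fin]
  have e2 : ((T : ℝ) + (wt a.1 : ℝ) - (wt (r a).1 : ℝ)) / D
      = (T : ℝ) / D - (wR wt D (r a) - wR wt D a) := by
    unfold wR
    field_simp
    ring
  rw [e2] at h1
  simp only
  linarith

end Sound

/-- The weights of the example on the cycle with 100 vertices, multiplied by `126`. -/
def wt100 (i : ℕ) : ℕ :=
  [12, 0, 0, 3, 1, 0, 0, 0, 0, 0, 0, 0, 14, 0, 12, 0, 0, 0, 0, 0, 0, 0, 0, 0, 0, 0, 0, 0, 0, 0, 0, 0,
    0, 0, 0, 0, 0, 0, 6, 0, 12, 6, 12, 0, 0, 0, 0, 0, 0, 0, 0, 0, 0, 0, 0, 0, 0, 0, 0, 0, 0, 0, 0,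
    0, 0, 0, 0, 0, 0, 0, 0, 12, 4, 16, 4, 0, 0, 0, 0, 0, 0, 0, 0, 0, 0, 0, 0, 0, 0, 0, 0, 0, 0, 0,
    12, 0, 0, 0, 0, 0].getD i 0

/-- Bob's start vertex, as a function of Alice's start vertex. -/
def reply100 (i : Fin (98 + 2)) : Fin (98 + 2) :=
  Fin.ofNat _ ([75, 74, 73, 76, 75, 74, 73, 40, 40, 40, 40, 38, 38, 38, 13, 14, 15, 16, 17, 18, 19,
    20, 19, 18, 17, 16, 15, 14, 13, 12, 71, 71, 71, 71, 71, 71, 71, 71, 71, 71, 1, 94, 41, 42, 43,
    42, 41, 40, 47, 48, 49, 48, 47, 46, 71, 71, 73, 72, 71, 71, 71, 71, 71, 71, 71, 71, 71, 71, 71,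
    71, 71, 72, 14, 12, 49, 48, 47, 46, 45, 44, 43, 42, 3, 3, 3, 0, 99, 99, 99, 99, 99, 94, 94, 94,
    99, 99, 99, 99, 99, 76].getD i.1 0)

set_option maxRecDepth 100000 in
theorem good100 : ∀ a : Fin (98 + 2), reply100 a ≠ a ∧
    chk wt100 30 (98 + 2) false (1 <<< a.1 ||| 1 <<< (reply100 a).1) a (reply100 a)
      (wt100 (reply100 a).1) (wt100 a.1) = true := by
  decide +kernel

set_option maxRecDepth 100000 in
theorem sum100 : ∑ i : Fin (98 + 2), wt100 i.1 = 126 := by decide +kernel

theorem main : ∃ w : Fin 100 → ℝ, (∀ i, 0 ≤ w i) ∧ ∑ i, w i = 1 ∧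
      1 / 5 < value (SimpleGraph.cycleGraph 100) w ∧
      5 / 21 ≤ value (SimpleGraph.cycleGraph 100) w := by
  have h5 : (5 / 21 : ℝ) ≤ value (SimpleGraph.cycleGraph 100) (wR (n := 98) wt100 126) := by
    have h := value_ge (n := 98) (wt := wt100) (T := 30) (D := 126) (by norm_num) reply100 good100
    norm_num at h ⊢
    exact h
  refine ⟨wR (n := 98) wt100 126, fun i => ?_, ?_, ?_, h5⟩
  · unfold wR
    positivity
  · have h : (∑ i : Fin (98 + 2), (wt100 i.1 : ℝ)) = 126 := by
      have := sum100
      exact_mod_cast this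
    unfold wR
    rw [← Finset.sum_div, h]
    norm_num
  · refine lt_of_lt_of_le ?_ h5
    norm_num

end Pool.Agent.Tron
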